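import Pool.Agent.Helper60.NB.Push
import Pool.Agent.Helper19.NF.Defs

/-!
# B14 in the frame
-/

set_option autoImplicit false

namespace Pool.Agent.Helper60.NB

open Pool.Agent.Helper19.NF

/-! ## B14 -/

section push

variable {n m : ℕ} [NeZero m] {B Λ F : Type} [AddCommGroup B] [Fintype B] [Fintype Λ] [Nonempty Λ]

/-- B14: the pushdown program. -/
theorem pushdown_program (hn : 1 ≤ n) (x0 : Pos n m → B) (α : Dir m → Λ → F → B)
    (hB : n * (n + 1) * m ≤ Fintype.card B) (hB2 : 2 ≤ Fintype.card B)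
    (hΛ : Fintype.card Λ ≤ Fintype.card B) :
    ∃ (Q Γ : Type) (_ : Finite Q) (_ : Finite Γ) (P : PProg (B × Λ) F B Q Γ),
      Nat.card Q ≤ (2 * Fintype.card B) ^ 6 ∧ Nat.card Γ ≤ (2 * Fintype.card B) ^ 4 ∧
      ∀ J : B × Λ → F, P.Outputs J (out x0 fun b c => ∑ l, α c l (J (b, l))) ∧
        Nat.card {b // P.Asks J b} ≤ n * (n + 1) * m * Fintype.card Λ := by
  obtain ⟨Q, Γ, h1, h2, P, h3, h4, h5⟩ := block_value (Λ := Λ) (F := F) α (ring n m) x0 n (0, 0)
  have hU : Fintype.card (Pos n m) = (n + 1) * m := by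
    rw [Fintype.card_prod, ZMod.card, ZMod.card]
  have hD : Fintype.card (Dir m) = 2 * m := by
    rw [Fintype.card_prod, Fintype.card_bool, ZMod.card]
  rw [hU, hD] at h3
  rw [hU, hD] at h4
  rw [hU] at h5
  have hm : 1 ≤ m := NeZero.one_le
  generalize Fintype.card B = k at hB hB2 hΛ h3 h4 ⊢
  have e1 : n * ((n + 1) * m * (2 * m)) ≤ k * k := by
    have e2 : 2 * m ≤ k := by nlinarith
    calc n * ((n + 1) * m * (2 * m)) = (n * (n + 1) * m) * (2 * m) := by ring
      _ ≤ k * k := Nat.mul_le_mul hB e2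
  have e5 : k * k * (k + k * k) ≤ 2 * (k * k * (k * k)) := by
    nlinarith [Nat.mul_le_mul (le_refl (k * k)) (by nlinarith : k ≤ k * k)]
  have e6 : 2 * k + 1 ≤ k * k * (k * k) := by
    have : 4 ≤ k * k := Nat.mul_le_mul hB2 hB2
    nlinarith [Nat.mul_le_mul this (le_refl (k * k))]
  refine ⟨Q, Γ, h1, h2, P, ?_, ?_, fun y => ⟨(h5 y).1, (h5 y).2.trans (le_of_eq (by ring))⟩⟩
  · rw [h3]
    have e7 : n * ((n + 1) * m * (2 * m)) * (k + k * k) + 2 * k + 1 ≤ 4 * (k * k * (k * k)) := by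
      have := Nat.mul_le_mul e1 (le_refl (k + k * k))
      omega
    calc (n * ((n + 1) * m * (2 * m)) * (k + k * k) + 2 * k + 1) * (Fintype.card Λ * k)
        ≤ 4 * (k * k * (k * k)) * (k * k) := Nat.mul_le_mul e7 (Nat.mul_le_mul_right _ hΛ)
      _ ≤ 64 * (k * k * (k * k)) * (k * k) := by
          refine Nat.mul_le_mul_right _ (Nat.mul_le_mul_right _ (by norm_num))
      _ = (2 * k) ^ 6 := by ring
  · rw [h4]
    calc n * ((n + 1) * m * (2 * m)) * k + 1 ≤ k * k * (k + k * k) + (2 * k + 1) := by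
          have := Nat.mul_le_mul e1 (le_refl k)
          nlinarith
      _ ≤ 16 * (k * k * (k * k)) := by omega
      _ = (2 * k) ^ 4 := by ring

/-- B14 with fewer states, if the number of letters is small. -/
theorem pushdown_program5 (x0 : Pos n m → B) (α : Dir m → Λ → F → B)
    (hB : n * (n + 1) * m * (2 * m) ≤ Fintype.card B) (hB2 : 2 ≤ Fintype.card B)
    (hΛ : Fintype.card Λ ≤ Fintype.card B) :
    ∃ (Q Γ : Type) (_ : Finite Q) (_ : Finite Γ) (P : PProg (B × Λ) F B Q Γ),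
      Nat.card Q ≤ (2 * Fintype.card B) ^ 5 ∧ Nat.card Γ ≤ (2 * Fintype.card B) ^ 2 ∧
      ∀ J : B × Λ → F, P.Outputs J (out x0 fun b c => ∑ l, α c l (J (b, l))) ∧
        Nat.card {b // P.Asks J b} ≤ n * (n + 1) * m * Fintype.card Λ := by
  obtain ⟨Q, Γ, h1, h2, P, h3, h4, h5⟩ := block_value (Λ := Λ) (F := F) α (ring n m) x0 n (0, 0)
  have hU : Fintype.card (Pos n m) = (n + 1) * m := by
    rw [Fintype.card_prod, ZMod.card, ZMod.card]
  have hD : Fintype.card (Dir m) = 2 * m := by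
    rw [Fintype.card_prod, Fintype.card_bool, ZMod.card]
  rw [hU, hD] at h3
  rw [hU, hD] at h4
  rw [hU] at h5
  generalize Fintype.card B = k at hB hB2 hΛ h3 h4 ⊢
  have e1 : n * ((n + 1) * m * (2 * m)) ≤ k := by
    calc n * ((n + 1) * m * (2 * m)) = n * (n + 1) * m * (2 * m) := by ring
      _ ≤ k := hB
  refine ⟨Q, Γ, h1, h2, P, ?_, ?_, fun y => ⟨(h5 y).1, (h5 y).2.trans (le_of_eq (by ring))⟩⟩
  · rw [h3]
    have e8 : k * (k + k * k) + 2 * k + 1 ≤ 4 * (k * k * k) := by nlinarith [Nat.mul_le_mul hB2 hB2]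
    have e7 : n * ((n + 1) * m * (2 * m)) * (k + k * k) + 2 * k + 1 ≤ 4 * (k * k * k) := by
      have := Nat.mul_le_mul e1 (le_refl (k + k * k))
      omega
    calc (n * ((n + 1) * m * (2 * m)) * (k + k * k) + 2 * k + 1) * (Fintype.card Λ * k)
        ≤ 4 * (k * k * k) * (k * k) := Nat.mul_le_mul e7 (Nat.mul_le_mul_right _ hΛ)
      _ ≤ 32 * (k * k * k) * (k * k) := by
          refine Nat.mul_le_mul_right _ (Nat.mul_le_mul_right _ (by norm_num))
      _ = (2 * k) ^ 5 := by ring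
  · rw [h4]
    calc n * ((n + 1) * m * (2 * m)) * k + 1 ≤ k * k + 1 := by
          have := Nat.mul_le_mul e1 (le_refl k)
          omega
      _ ≤ 4 * (k * k) := by nlinarith
      _ = (2 * k) ^ 2 := by ring

end push

end Pool.Agent.Helper60.NB
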