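import Pool.Agent.Helper96.NF.Push

/-!
# Pushdown programs which read the cells symbol by symbol
-/

set_option autoImplicit false

namespace Pool.Agent.Helper60.NB

open Pool.Agent.Helper19.NF

section wrap

variable {B D Λ F Z Q Γ : Type} [AddCommGroup B] {L : ℕ}

/-- The program which reads the block of a cell symbol by symbol and adds up the contributions to
one component of the word. -/
def wrap (hL : 0 < L) (e : Fin L ≃ Λ) (φ : D → Λ → F → B) (P : PProg B (D → B) Z Q Γ) (cc : Q → D)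
    (nq : Q → B → Q) : PProg (B × Λ) F Z (Q × Fin L × B) Γ where
  start := (P.start, ⟨0, hL⟩, 0)
  act := fun x => match P.act x.1 with
    | .ask b _ => .ask (b, e x.2.1) (fun y =>
        if h : x.2.1.val + 1 < L then (x.1, ⟨x.2.1.val + 1, h⟩, x.2.2 + φ (cc x.1) (e x.2.1) y)
        else (nq x.1 (x.2.2 + φ (cc x.1) (e x.2.1) y), ⟨0, hL⟩, 0))
    | .push s q => .push s (q, ⟨0, hL⟩, 0)
    | .pop nx => .pop (fun s => (nx s, ⟨0, hL⟩, 0))
    | .out z => .out z

variable (hL : 0 < L) (e : Fin L ≃ Λ) (φ : D → Λ → F → B) (P : PProg B (D → B) Z Q Γ) (cc : Q → D)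
  (nq : Q → B → Q)

/-- The word of a block. -/
def dec [Fintype Λ] (φ : D → Λ → F → B) (y : B × Λ → F) (b : B) (c : D) : B :=
  ∑ l, φ c l (y (b, l))

/-- The contribution number `i`. -/
def ct (y : B × Λ → F) (b : B) (c : D) (i : ℕ) : B :=
  if h : i < L then φ c (e ⟨i, h⟩) (y (b, e ⟨i, h⟩)) else 0

theorem sum_ct [Fintype Λ] (y : B × Λ → F) (b : B) (c : D) :
    ∑ i ∈ Finset.range L, ct e φ y b c i = dec φ y b c := by
  rw [Finset.sum_range]
  unfold dec
  rw [← e.sum_comp]
  refine Finset.sum_congr rfl fun i _ => ?_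
  unfold ct
  rw [dif_pos i.2]

/-- The configurations which occur. -/
def Inv (y : B × Λ → F) (c : Q × List Γ) (x : (Q × Fin L × B) × List Γ) : Prop :=
  x.1.1 = c.1 ∧ x.2 = c.2 ∧
    match P.act c.1 with
    | .ask b _ => x.1.2.2 = ∑ i ∈ Finset.range x.1.2.1, ct e φ y b (cc c.1) i
    | _ => x.1.2.1.val = 0 ∧ x.1.2.2 = 0

variable {P cc nq}

theorem inv_zero (y : B × Λ → F) (c : Q × List Γ) :
    Inv e φ P cc y c ((c.1, ⟨0, hL⟩, 0), c.2) := by
  refine ⟨rfl, rfl, ?_⟩
  rcases P.act c.1 with ⟨b, nx⟩ | ⟨s, q⟩ | nx | z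
  · simp
  · exact ⟨rfl, rfl⟩
  · exact ⟨rfl, rfl⟩
  · exact ⟨rfl, rfl⟩

/-- One step of the new program is no step or one step of the old one. -/
theorem inv_step [Fintype Λ] (hc : ∀ q b nx, P.act q = .ask b nx → ∀ w, nx w = nq q (w (cc q)))
    (y : B × Λ → F) {c : Q × List Γ} {x : (Q × Fin L × B) × List Γ} (h : Inv e φ P cc y c x) :
    (Inv e φ P cc y c ((wrap hL e φ P cc nq).step y x) ∧
      ((wrap hL e φ P cc nq).step y x).1.2.1.val = x.1.2.1.val + 1) ∨
      (wrap hL e φ P cc nq).step y x =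
        (((P.step (dec φ y) c).1, ⟨0, hL⟩, 0), (P.step (dec φ y) c).2) := by
  obtain ⟨⟨q, j, s⟩, st⟩ := x
  obtain ⟨q', st'⟩ := c
  obtain ⟨h1, h2, h3⟩ := h
  simp only at h1 h2
  subst h1
  subst h2
  unfold PProg.step wrap
  simp only
  simp only at h3
  rcases hact : P.act q with ⟨b, nx⟩ | ⟨s', q'⟩ | nx | z
  · simp only [hact] at h3 ⊢
    by_cases hj : j.val + 1 < L
    · left
      rw [dif_pos hj]
      refine ⟨⟨rfl, rfl, ?_⟩, rfl⟩
      simp only [hact]
      rw [Finset.sum_range_succ, ← h3]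
      congr 1
      unfold ct
      rw [dif_pos j.2]
    · right
      rw [dif_neg hj, hc q b nx hact]
      have h4 : s + φ (cc q) (e j) (y (b, e j)) = dec φ y b (cc q) := by
        rw [← sum_ct e φ y b (cc q)]
        obtain ⟨r, hr⟩ : ∃ r, L = r + 1 := ⟨L - 1, by omega⟩
        have h5 : j.val = r := by
          have := j.2
          omega
        have h6 : Finset.range L = Finset.range (j.val + 1) := by rw [h5, hr]
        rw [h6, Finset.sum_range_succ, ← h3]
        congr 1
        unfold ct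
        rw [dif_pos j.2]
      rw [h4]
  · right
    simp only
  · right
    simp only
    rcases st with _ | ⟨s', st⟩
    · simp only [hact] at h3
      have h4 : j = ⟨0, hL⟩ := Fin.ext h3.1
      rw [h4, h3.2]
    · rfl
  · right
    simp only [hact] at h3 ⊢
    have h4 : j = ⟨0, hL⟩ := Fin.ext h3.1
    rw [h4, h3.2]

/-- Every configuration of the new program belongs to a configuration of the old one. -/
theorem inv_all [Fintype Λ] (hc : ∀ q b nx, P.act q = .ask b nx → ∀ w, nx w = nq q (w (cc q)))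
    (y : B × Λ → F) (t : ℕ) :
    ∃ m, Inv e φ P cc y (P.conf (dec φ y) m) ((wrap hL e φ P cc nq).conf y t) := by
  induction t with
  | zero => exact ⟨0, inv_zero hL e φ y (P.start, [])⟩
  | succ t ih =>
    obtain ⟨m, hm⟩ := ih
    have h1 : (wrap hL e φ P cc nq).conf y (t + 1) =
        (wrap hL e φ P cc nq).step y ((wrap hL e φ P cc nq).conf y t) :=
      Function.iterate_succ_apply' _ _ _
    rcases inv_step hL e φ hc y hm with h2 | h2
    · exact ⟨m, by rw [h1]; exact h2.1⟩
    · refine ⟨m + 1, ?_⟩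
      have h3 : P.conf (dec φ y) (m + 1) = P.step (dec φ y) (P.conf (dec φ y) m) :=
        Function.iterate_succ_apply' _ _ _
      rw [h1, h2, h3]
      exact inv_zero hL e φ y _

/-- The new program finishes every step of the old one. -/
theorem reach_step [Fintype Λ] (hc : ∀ q b nx, P.act q = .ask b nx → ∀ w, nx w = nq q (w (cc q)))
    (y : B × Λ → F) (c : Q × List Γ) : ∀ (r : ℕ) (x : (Q × Fin L × B) × List Γ),
      Inv e φ P cc y c x → L ≤ x.1.2.1.val + r →
      ∃ t, ((wrap hL e φ P cc nq).step y)^[t] x =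
        (((P.step (dec φ y) c).1, ⟨0, hL⟩, 0), (P.step (dec φ y) c).2) := by
  intro r
  induction r with
  | zero =>
    intro x _ hr
    have := x.1.2.1.2
    omega
  | succ r ih =>
    intro x hx hr
    rcases inv_step hL e φ hc y hx with h2 | h2
    · obtain ⟨t, ht⟩ := ih _ h2.1 (by omega)
      exact ⟨t + 1, by rw [Function.iterate_succ_apply]; exact ht⟩
    · exact ⟨1, h2⟩

theorem reach_all [Fintype Λ] (hc : ∀ q b nx, P.act q = .ask b nx → ∀ w, nx w = nq q (w (cc q)))
    (y : B × Λ → F) (m : ℕ) :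
    ∃ t, (wrap hL e φ P cc nq).conf y t =
      (((P.conf (dec φ y) m).1, ⟨0, hL⟩, 0), (P.conf (dec φ y) m).2) := by
  induction m with
  | zero => exact ⟨0, rfl⟩
  | succ m ih =>
    obtain ⟨t, ht⟩ := ih
    obtain ⟨t', ht'⟩ := reach_step hL e φ hc y (P.conf (dec φ y) m) L
      (((P.conf (dec φ y) m).1, ⟨0, hL⟩, 0), (P.conf (dec φ y) m).2)
      (inv_zero hL e φ y _) (by omega)
    refine ⟨t' + t, ?_⟩
    unfold PProg.conf at ht ht' ⊢
    rw [Function.iterate_add_apply, ht, ht', ← Function.iterate_succ_apply' (P.step (dec φ y))]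

/-- The new program has the same result. -/
theorem wrap_outputs [Fintype Λ]
    (hc : ∀ q b nx, P.act q = .ask b nx → ∀ w, nx w = nq q (w (cc q))) (y : B × Λ → F) {z : Z}
    (h : P.Outputs (dec φ y) z) : (wrap hL e φ P cc nq).Outputs y z := by
  obtain ⟨m, hm⟩ := h
  obtain ⟨t, ht⟩ := reach_all hL e φ hc y m
  refine ⟨t, ?_⟩
  rw [ht]
  show (match P.act (P.conf (dec φ y) m).1 with
    | .ask b _ => _
    | .push s q => _
    | .pop nx => _
    | .out z => _) = _
  rw [hm]

/-- The new program queries only symbols of cells which the old one queries. -/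
theorem wrap_asks [Fintype Λ]
    (hc : ∀ q b nx, P.act q = .ask b nx → ∀ w, nx w = nq q (w (cc q))) (y : B × Λ → F) {b : B}
    {l : Λ} (h : (wrap hL e φ P cc nq).Asks y (b, l)) : P.Asks (dec φ y) b := by
  obtain ⟨t, nx, ht⟩ := h
  obtain ⟨m, h1, -, -⟩ := inv_all hL e φ hc y t
  have h2 : (match P.act ((wrap hL e φ P cc nq).conf y t).1.1 with
    | .ask b _ => PAct.ask (b, e ((wrap hL e φ P cc nq).conf y t).1.2.1) (fun z =>
        if h : ((wrap hL e φ P cc nq).conf y t).1.2.1.val + 1 < L then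
          (((wrap hL e φ P cc nq).conf y t).1.1, ⟨((wrap hL e φ P cc nq).conf y t).1.2.1.val + 1, h⟩,
            ((wrap hL e φ P cc nq).conf y t).1.2.2 + φ (cc ((wrap hL e φ P cc nq).conf y t).1.1)
              (e ((wrap hL e φ P cc nq).conf y t).1.2.1) z)
        else (nq ((wrap hL e φ P cc nq).conf y t).1.1 (((wrap hL e φ P cc nq).conf y t).1.2.2 +
          φ (cc ((wrap hL e φ P cc nq).conf y t).1.1)
            (e ((wrap hL e φ P cc nq).conf y t).1.2.1) z), ⟨0, hL⟩, 0))
    | .push s q => .push s (q, ⟨0, hL⟩, 0)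
    | .pop nx => .pop (fun s => (nx s, ⟨0, hL⟩, 0))
    | .out z => .out z) = PAct.ask (b, l) nx := ht
  rw [h1] at h2
  rcases hact : P.act (P.conf (dec φ y) m).1 with ⟨b', nx'⟩ | ⟨s, q⟩ | nx' | z
  · rw [hact] at h2
    simp only [PAct.ask.injEq, Prod.mk.injEq] at h2
    obtain ⟨⟨rfl, -⟩, -⟩ := h2
    exact ⟨m, nx', hact⟩
  · rw [hact] at h2
    cases h2
  · rw [hact] at h2
    cases h2
  · rw [hact] at h2
    cases h2

theorem wrap_card [Finite B] [Fintype Λ]
    (hc : ∀ q b nx, P.act q = .ask b nx → ∀ w, nx w = nq q (w (cc q))) (y : B × Λ → F) :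
    Nat.card {x // (wrap hL e φ P cc nq).Asks y x} ≤
      Nat.card {b // P.Asks (dec φ y) b} * Fintype.card Λ := by
  rw [← Nat.card_eq_fintype_card (α := Λ), ← Nat.card_prod]
  refine Nat.card_le_card_of_injective
    (fun x => (⟨x.1.1, wrap_asks hL e φ hc y x.2⟩, x.1.2)) ?_
  intro x x' h
  simp only [Prod.mk.injEq, Subtype.mk.injEq] at h
  exact Subtype.ext (Prod.ext h.1 h.2)

end wrap

section value

variable {U D B Λ F : Type} [Fintype U] [Fintype D] [AddCommGroup B] [Fintype B] [Fintype Λ]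

/-- The component which is used in a state. -/
def comp {R d : ℕ} (e : Fin d ≃ D) (c₀ : D) :
    Pool.Agent.Helper96.NF.St R U d B (Unit ⊕ B) → D
  | .inr (.inl (σ, _, _)) => e σ.2.2
  | _ => c₀

/-- The next state. -/
def nxs {R d : ℕ} : Pool.Agent.Helper96.NF.St R U d B (Unit ⊕ B) → B →
    Pool.Agent.Helper96.NF.St R U d B (Unit ⊕ B)
  | .inr (.inl (σ, t, _)), w => Pool.Agent.Helper96.NF.nxt σ.1 σ.2.1 σ.2.2 (t + w)
  | q, _ => q

/-- The pushdown program for an element of row `R` when the cells are read symbol by symbol. -/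
theorem block_value [Nonempty D] [Nonempty Λ] (φ : D → Λ → F → B) (g : D → Equiv.Perm U)
    (x0 : U → B) (R : ℕ) (u : U) :
    ∃ (Q Γ : Type) (_ : Finite Q) (_ : Finite Γ) (P : PProg (B × Λ) F B Q Γ),
      Nat.card Q = ((R * (Fintype.card U * Fintype.card D)) *
        (Fintype.card B + Fintype.card B * Fintype.card B) + 2 * Fintype.card B + 1) *
        (Fintype.card Λ * Fintype.card B) ∧
      Nat.card Γ = (R * (Fintype.card U * Fintype.card D)) * Fintype.card B + 1 ∧
      ∀ y, P.Outputs y (val g x0 (dec φ y) R u) ∧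
        Nat.card {x // P.Asks y x} ≤ R * Fintype.card U * Fintype.card Λ := by
  classical
  have hd : 0 < Fintype.card D := Fintype.card_pos
  have hL : 0 < Fintype.card Λ := Fintype.card_pos
  let e : Fin (Fintype.card D) ≃ D := (Fintype.equivFin D).symm
  let e' : Fin (Fintype.card Λ) ≃ Λ := (Fintype.equivFin Λ).symm
  have hc : ∀ q b nx, (Pool.Agent.Helper96.NF.prog1 e hd g x0 R u).act q = .ask b nx →
      ∀ w, nx w = nxs q (w (comp e (Classical.arbitrary D) q)) := by
    intro q b nx hq w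
    rcases q with ⟨σ, t⟩ | ⟨σ, t, x⟩ | x | x | x
    · cases hq
    · have h1 : PAct.ask x (fun w : D → B => Pool.Agent.Helper96.NF.nxt σ.1 σ.2.1 σ.2.2
          (t + w (e σ.2.2))) = PAct.ask b nx := hq
      simp only [PAct.ask.injEq] at h1
      rw [← h1.2]
      rfl
    · cases hq
    · cases hq
    · cases hq
  refine ⟨_, Pool.Agent.Helper96.NF.Sy R U (Fintype.card D) B Unit, inferInstance, inferInstance,
    wrap hL e' φ (Pool.Agent.Helper96.NF.prog1 e hd g x0 R u) (comp e (Classical.arbitrary D))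
      nxs, ?_, ?_, fun y => ?_⟩
  · rw [Nat.card_eq_fintype_card]
    simp only [Fintype.card_sum, Fintype.card_prod, Fintype.card_fin, Fintype.card_unit]
    ring
  · rw [Nat.card_eq_fintype_card]
    simp only [Fintype.card_sum, Fintype.card_prod, Fintype.card_fin, Fintype.card_unit]
  · have hY : ∀ i < R, ∀ w, val g x0 (dec φ y) i w ∈
        Set.range (fun z : Fin R × U => val g x0 (dec φ y) z.1 z.2) :=
      fun i hi w => ⟨(⟨i, hi⟩, w), rfl⟩
    have hg : Pool.Agent.Helper96.NF.Good (Pool.Agent.Helper96.NF.prog1 e hd g x0 R u) (dec φ y)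
        (Set.range (fun z : Fin R × U => val g x0 (dec φ y) z.1 z.2)) (val g x0 (dec φ y) R u)
        (.inr (.inr (.inr (.inl ()))), []) := by
      refine Pool.Agent.Helper96.NF.good_push
        (P := Pool.Agent.Helper96.NF.prog1 e hd g x0 R u) (g := .inr ()) rfl ?_
      refine Pool.Agent.Helper96.NF.run_val e hd g x0 (Pool.Agent.Helper96.NF.ax1 hd x0 R u) _ _
        (dec φ y) hY _ R le_rfl u _ ?_
      refine Pool.Agent.Helper96.NF.good_pop
        (P := Pool.Agent.Helper96.NF.prog1 e hd g x0 R u) (s := .inr (.inr (.inl _))) rfl ?_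
      exact Pool.Agent.Helper96.NF.good_out rfl
    obtain ⟨h1, h2⟩ := hg
    refine ⟨wrap_outputs hL e' φ hc y h1, (wrap_card hL e' φ hc y).trans ?_⟩
    refine Nat.mul_le_mul_right _ ?_
    have h3 : ∀ b : {b // (Pool.Agent.Helper96.NF.prog1 e hd g x0 R u).Asks (dec φ y) b},
        ∃ z : Fin R × U, val g x0 (dec φ y) z.1 z.2 = b.1 := by
      rintro ⟨b, m, nx, hm⟩
      exact h2 m b nx hm
    choose f hf using h3
    have h4 : Function.Injective f := fun c c' h => Subtype.ext (by rw [← hf c, ← hf c', h])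
    calc Nat.card {b // (Pool.Agent.Helper96.NF.prog1 e hd g x0 R u).Asks (dec φ y) b} ≤
          Nat.card (Fin R × U) := Nat.card_le_card_of_injective f h4
      _ = R * Fintype.card U := by
        rw [Nat.card_eq_fintype_card, Fintype.card_prod, Fintype.card_fin]

end value

end Pool.Agent.Helper60.NB
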