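import Pool.Agent.Helper60.NF.All
import Pool.Agent.Helper60.NB.Push

/-!
# Programs which may read all symbols
-/

set_option autoImplicit false

namespace Pool.Agent.Helper60.NB

open Pool.Agent.Helper19.NF
open Pool.Agent.Helper5.TreeExp (BP Inst Var value ask Solves)
open Pool.Agent.Helper60.NFA

variable {n m : ℕ} [NeZero m] {B Λ F : Type} [AddCommGroup B] [Fintype B] [Fintype Λ] [Nonempty Λ]

/-- The enumeration of the symbols of the two children. -/
noncomputable def en (m : ℕ) [NeZero m] (Λ : Type) [Fintype Λ] :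
    Fin (Fintype.card ((Bool × ZMod m) × Λ)) ≃ (Bool × ZMod m) × Λ :=
  (Fintype.equivFin _).symm

/-- The symbol of the query number `j`. -/
noncomputable def cellS (m : ℕ) [NeZero m] (B Λ : Type) [AddCommGroup B] [Fintype B] [Fintype Λ]
    (p : ZMod (n + 1) ⊕ (Fin 2 → Fin (Fintype.card (ZMod m → B))))
    (j : Fin (Fintype.card ((Bool × ZMod m) × Λ))) : B × Λ :=
  (p.elim (fun _ => 0) (fun x => (enc m B).symm (x (sd (en m Λ j).1.1)) (en m Λ j).1.2),
    (en m Λ j).2)

/-- The summand of the query number `j`. -/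
noncomputable def sumS (φ : Bool × ZMod m → Λ → F → B)
    (p : ZMod (n + 1) ⊕ (Fin 2 → Fin (Fintype.card (ZMod m → B))))
    (j : Fin (Fintype.card ((Bool × ZMod m) × Λ))) (w : F) : ZMod m → B :=
  p.elim (fun _ => 0)
    (fun _ t => φ ((en m Λ j).1.1, (en m Λ j).1.2 - t) (en m Λ j).2 w)

omit [Nonempty Λ] in
theorem fin_sumS (φ : Bool × ZMod m → Λ → F → B) (x0 : ZMod (n + 1) × ZMod m → B)
    (y : B × Λ → F) (p : ZMod (n + 1) ⊕ (Fin 2 → Fin (Fintype.card (ZMod m → B)))) :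
    finP x0 p (∑ j, sumS φ p j (y (cellS m B Λ p j))) =
      p.elim (fun u => enc m B (fun t => x0 (u, t)))
        (fun x => enc m B (node (dec φ y) fun c => (enc m B).symm (x c))) := by
  rcases p with u | x
  · rfl
  · show enc m B _ = enc m B _
    congr 1
    funext t
    rw [Finset.sum_apply]
    show ∑ j, φ ((en m Λ j).1.1, (en m Λ j).1.2 - t) (en m Λ j).2
      (y ((enc m B).symm (x (sd (en m Λ j).1.1)) (en m Λ j).1.2, (en m Λ j).2)) =
      ∑ c : Bool × ZMod m, dec φ y ((enc m B).symm (x (sd c.1)) (t + c.2)) c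
    rw [(en m Λ).sum_comp (fun c : (Bool × ZMod m) × Λ => φ (c.1.1, c.1.2 - t) c.2
      (y ((enc m B).symm (x (sd c.1.1)) c.1.2, c.2))), Fintype.sum_prod_type]
    refine (Fintype.sum_equiv (Equiv.prodCongrRight fun _ : Bool => Equiv.addLeft t) _ _ ?_).symm
    rintro ⟨s, r⟩
    unfold dec
    simp

/-- A program for tree evaluation gives a program for the network which reads symbols. -/
theorem of_tree (φ : Bool × ZMod m → Λ → F → B) (x0 : ZMod (n + 1) × ZMod m → B) {N : ℕ}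
    (B' : BP (Var 2 (Fintype.card (ZMod m → B)) (n + 1 - 1)) (Fintype.card (ZMod m → B)) N)
    (hB' : Solves 2 (n + 1) (Fintype.card (ZMod m → B)) B') :
    ∃ P : Prog (B × Λ) F B 1
      (Fintype.card (Fin N × Fin (Fintype.card ((Bool × ZMod m) × Λ)) × (ZMod m → B))),
      ∀ y, P.Outputs y (P.start 0) (out x0 (dec φ y)) := by
  have hr : 0 < Fintype.card ((Bool × ZMod m) × Λ) := Fintype.card_pos
  obtain ⟨P, hP⟩ := sim (C := B × Λ) (W := F) (Z := B) (Acc := ZMod m → B) hr B'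
    (fun v => cellS m B Λ (pl n _ n 0 v)) (fun v => sumS φ (pl n _ n 0 v))
    (fun v => finP x0 (pl n _ n 0 v)) (fun y => (enc m B).symm y 0)
  refine ⟨P, fun y => ?_⟩
  have h1 := hB' (tr x0 (dec φ y) n 0)
  have h2 : ask 2 (Fintype.card (ZMod m → B)) (n + 1 - 1) (tr x0 (dec φ y) n 0) =
      fun v => finP x0 (pl n _ n 0 v) (∑ j, sumS φ (pl n _ n 0 v) j
        (y (cellS m B Λ (pl n _ n 0 v) j))) := by
    funext v
    rw [fin_sumS]
    exact ask_tr x0 (dec φ y) n 0 v
  rw [h2] at h1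
  have h3 := hP y _ h1
  have h4 : (enc m B).symm (value 2 (Fintype.card (ZMod m → B)) (n + 1 - 1)
      (tr x0 (dec φ y) n 0)) 0 = out x0 (dec φ y) := by
    have h5 := value_tr x0 (dec φ y) n 0
    have h6 : value 2 (Fintype.card (ZMod m → B)) (n + 1 - 1) (tr x0 (dec φ y) n 0) =
      enc m B (fun t => val (ring n m) x0 (dec φ y) n (0, t)) := h5
    rw [h6, Equiv.symm_apply_apply]
    rfl
  rw [h4] at h3
  exact h3

omit [Nonempty Λ] [Fintype Λ] [Fintype B] [AddCommGroup B] [NeZero m] in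
/-- The programs which may read all symbols: Cook and Mertz. -/
theorem read_symbols : ∃ C : ℝ, 0 < C ∧ ∀ (n m : ℕ) [NeZero m] (B Λ F : Type) [AddCommGroup B]
    [Fintype B] [Fintype Λ] [Nonempty Λ] (φ : Bool × ZMod m → Λ → F → B)
    (x0 : ZMod (n + 1) × ZMod m → B), 1 ≤ n → 2 ≤ Fintype.card B →
    ∃ (S : ℕ) (P : Prog (B × Λ) F B 1 S),
      (∀ y, P.Outputs y (P.start 0) (out x0 (dec φ y))) ∧
      (S : ℝ) ≤ Fintype.card Λ * 2 ^ (C * (n * Real.logb 2 (2 * (m *
        Real.logb 2 (Fintype.card B))) + m * Real.logb 2 (Fintype.card B))) := by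
  obtain ⟨C, hC, h⟩ := tree_bound
  refine ⟨C, hC, fun n m _ B Λ F _ _ _ _ φ x0 hn hB => ?_⟩
  obtain ⟨N, B', hB', hN⟩ := h n m B hn hB
  obtain ⟨P, hP⟩ := of_tree φ x0 B' hB'
  refine ⟨_, P, hP, le_trans (le_of_eq ?_)
    (mul_le_mul_of_nonneg_left hN (Nat.cast_nonneg (Fintype.card Λ)))⟩
  rw [Fintype.card_prod, Fintype.card_prod, Fintype.card_fin, Fintype.card_fin,
    Fintype.card_prod, Fintype.card_prod, Fintype.card_bool, ZMod.card]
  push_cast
  ring

end Pool.Agent.Helper60.NB
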