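import Pool.Agent.Helper60.NB.All
import Pool.Agent.Helper27.NB.Word

/-!
# The numbers for the programs which read all symbols
-/

set_option autoImplicit false

namespace Pool.Agent.Helper60.NB

open Pool.Agent.Helper19.NF
open Pool.Agent.Helper27.NB (word num)

/-- The numbers, with `L` the logarithm of `n`. -/
theorem num_bound (C₀ : ℝ) (hC₀ : 0 < C₀) (n m k q C : ℕ) (L : ℝ) (hL : L = Real.log n)
    (h216 : 216 ≤ L) (hC : 5 * C₀ + 1 ≤ C) (hm1 : 1 ≤ m) (hm : (m : ℝ) ≤ L ^ 2) (hk1 : 2 ≤ k)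
    (hk : k ≤ n ^ 6) (hq : q ≤ n) :
    (q : ℝ) * 2 ^ (C₀ * (n * Real.logb 2 (2 * (m * Real.logb 2 k)) + m * Real.logb 2 k)) ≤
      L ^ (C * n) := by
  have hn0 : 0 < n := by
    rcases Nat.eq_zero_or_pos n with h | h
    · rw [hL, h] at h216
      norm_num at h216
    · exact h
  have hn : (0 : ℝ) < n := by exact_mod_cast hn0
  have hl2 : 0 < Real.log 2 := Real.log_pos (by norm_num)
  have hl2' : (2 : ℝ) / 3 ≤ Real.log 2 := by linarith [Real.log_two_gt_d9]
  have hL0 : 0 < L := by linarith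
  have hlk : Real.logb 2 k ≤ 9 * L := by
    rw [Real.logb, div_le_iff₀ hl2]
    have h1 : Real.log k ≤ 6 * L := by
      have h2 : Real.log k ≤ Real.log ((n : ℝ) ^ 6) :=
        Real.log_le_log (by exact_mod_cast (by omega : 0 < k)) (by exact_mod_cast hk)
      rw [Real.log_pow, ← hL] at h2
      exact_mod_cast h2
    nlinarith
  have hlk1 : 1 ≤ Real.logb 2 k := by
    rw [Real.le_logb_iff_rpow_le (by norm_num) (by exact_mod_cast (by omega : 0 < k)), Real.rpow_one]
    exact_mod_cast hk1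
  have hm' : (1 : ℝ) ≤ m := by exact_mod_cast hm1
  have hlL : 1 ≤ Real.logb 2 L := by
    rw [Real.le_logb_iff_rpow_le (by norm_num) hL0, Real.rpow_one]
    linarith
  have h1 : 2 * (m * Real.logb 2 k) ≤ L ^ 4 := by
    have h2 : (m : ℝ) * Real.logb 2 k ≤ L ^ 2 * (9 * L) :=
      mul_le_mul hm hlk (by linarith) (by positivity)
    calc 2 * (m * Real.logb 2 k) ≤ 18 * L ^ 3 := by nlinarith
      _ ≤ L * L ^ 3 := by
          refine mul_le_mul_of_nonneg_right (by linarith) (by positivity)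
      _ = L ^ 4 := by ring
  have h3 : Real.logb 2 (2 * (m * Real.logb 2 k)) ≤ 4 * Real.logb 2 L := by
    calc Real.logb 2 (2 * (m * Real.logb 2 k)) ≤ Real.logb 2 (L ^ 4) :=
          Real.logb_le_logb_of_le (by norm_num) (by positivity) h1
      _ = 4 * Real.logb 2 L := by rw [Real.logb_pow]; norm_num
  have h4 : 9 * L ^ 3 ≤ n := by
    have h5 : L ^ 4 / 24 ≤ Real.exp L := by
      have := Real.pow_div_factorial_le_exp L hL0.le 4
      norm_num [Nat.factorial] at this
      linarith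
    rw [hL, Real.exp_log hn, ← hL] at h5
    have h6 : 216 * L ^ 3 ≤ L ^ 4 := by
      calc 216 * L ^ 3 ≤ L * L ^ 3 := mul_le_mul_of_nonneg_right h216 (by positivity)
        _ = L ^ 4 := by ring
    linarith
  have h7 : m * Real.logb 2 k ≤ n * Real.logb 2 L := by
    have h2 : (m : ℝ) * Real.logb 2 k ≤ L ^ 2 * (9 * L) :=
      mul_le_mul hm hlk (by linarith) (by positivity)
    nlinarith
  have h8 : C₀ * (n * Real.logb 2 (2 * (m * Real.logb 2 k)) + m * Real.logb 2 k) ≤
      5 * C₀ * (n * Real.logb 2 L) := by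
    have h9 : n * Real.logb 2 (2 * (m * Real.logb 2 k)) ≤ n * (4 * Real.logb 2 L) :=
      mul_le_mul_of_nonneg_left h3 hn.le
    nlinarith
  have h10 : (q : ℝ) ≤ 2 ^ (n * Real.logb 2 L) := by
    calc (q : ℝ) ≤ n := by exact_mod_cast hq
      _ ≤ 2 ^ n := by exact_mod_cast Nat.lt_two_pow_self.le
      _ = (2 : ℝ) ^ (n : ℝ) := (Real.rpow_natCast 2 n).symm
      _ ≤ 2 ^ (n * Real.logb 2 L) := by
          refine Real.rpow_le_rpow_of_exponent_le (by norm_num) ?_
          nlinarith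
  calc (q : ℝ) * 2 ^ (C₀ * (n * Real.logb 2 (2 * (m * Real.logb 2 k)) + m * Real.logb 2 k))
      ≤ 2 ^ (n * Real.logb 2 L) * 2 ^ (5 * C₀ * (n * Real.logb 2 L)) :=
        mul_le_mul h10 (Real.rpow_le_rpow_of_exponent_le (by norm_num) h8) (by positivity)
          (by positivity)
    _ = 2 ^ ((5 * C₀ + 1) * (n * Real.logb 2 L)) := by
        rw [← Real.rpow_add (by norm_num)]
        congr 1
        ring
    _ ≤ 2 ^ ((C : ℝ) * (n * Real.logb 2 L)) := by
        refine Real.rpow_le_rpow_of_exponent_le (by norm_num) ?_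
        refine mul_le_mul_of_nonneg_right hC ?_
        nlinarith
    _ = L ^ (C * n) := by
        rw [show (C : ℝ) * (n * Real.logb 2 L) = Real.logb 2 L * ((C * n : ℕ) : ℝ) by
          push_cast; ring, Real.rpow_mul (by norm_num), Real.rpow_logb (by norm_num) (by norm_num) hL0,
          Real.rpow_natCast]

/-- B19: a program which may read all symbols. -/
theorem read_words : ∃ C n0 : ℕ, ∀ (n m e : ℕ) [NeZero m] (F K : Type) [Field F] [Field K]
    [Fintype K] [Algebra F K] (x0 : ZMod (n + 1) × ZMod m → Fin e → K), n0 ≤ n → 1 ≤ e →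
    (m : ℝ) ≤ Real.log n ^ 2 → Fintype.card K ^ 2 ≤ n → Fintype.card K ^ e ≤ n ^ 6 →
    ∃ (S : ℕ) (P : Prog ((Fin e → K) × (K × K)) F (Fin e → K) 1 S),
      (S : ℝ) ≤ Real.log n ^ (C * n) ∧
      ∀ J, P.Outputs J (P.start 0) (out x0 fun b => word e num fun l => J (b, l)) := by
  obtain ⟨C₀, hC₀, h⟩ := read_symbols
  obtain ⟨C, hC⟩ := exists_nat_ge (5 * C₀ + 1)
  obtain ⟨n0, hn0⟩ := exists_nat_ge (Real.exp 216)
  refine ⟨C, n0, fun n m e _ F K _ _ _ _ x0 hn he hm hq hk => ?_⟩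
  have hn' : Real.exp 216 ≤ n := hn0.trans (by exact_mod_cast hn)
  have hnp : (0 : ℝ) < n := (Real.exp_pos _).trans_le hn'
  have h216 : 216 ≤ Real.log n := (Real.le_log_iff_exp_le hnp).2 hn'
  have hcB : Fintype.card (Fin e → K) = Fintype.card K ^ e := by
    rw [Fintype.card_fun, Fintype.card_fin]
  have hK : 2 ≤ Fintype.card K := Fintype.one_lt_card
  have hk2 : 2 ≤ Fintype.card K ^ e := hK.trans (Nat.le_self_pow (by omega) _)
  have hm1 : 1 ≤ m := Nat.one_le_iff_ne_zero.2 (NeZero.ne m)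
  obtain ⟨S, P, hP, hS⟩ := h n m (Fin e → K) (K × K) F
    (fun c l s i => s • (l.2 * l.1 ^ (e * num c + i.val))) x0 (by exact_mod_cast hnp)
    (by rw [hcB]; exact hk2)
  refine ⟨S, P, hS.trans ?_, fun J => ?_⟩
  · rw [hcB]
    refine num_bound C₀ hC₀ n m (Fintype.card K ^ e) _ C _ rfl h216 hC hm1 hm hk2 hk ?_
    rw [Fintype.card_prod, ← sq]
    exact hq
  · have h1 : (dec (fun (c : Bool × ZMod m) (l : K × K) (s : F) (i : Fin e) =>
        s • (l.2 * l.1 ^ (e * num c + i.val))) J) = fun b => word e num fun l => J (b, l) := by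
      funext b c i
      unfold dec
      rw [Finset.sum_apply]
      rfl
    rw [← h1]
    exact hP J

end Pool.Agent.Helper60.NB
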